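import Pool.Agent.Lib.MP_a17b09_nt.OM.All
import Pool.Agent.Lib.MP_a17b09_nt.OE.AllE

/-!
Let `f(t) = a t^2 + b t + c` with `a > 0` and nonsquare discriminant, let `m, ρ, t₀, h` be natural
numbers with `m, h > 0`. Suppose that either `m` is odd, or `h = 1`, `a` and `b` are coprime and `ρ`
has the parity of `Ω(a)`. Then there is a constant `C` such that for every `0 < ε ≤ 1/2` and every
large `N`, at least `N^(1-ε)` of the `t ≤ N` with `t ≡ t₀ mod h` have `f(t) > 0`, at most `C/ε` prime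
factors of `f(t)`, counted with multiplicity, and their number congruent to `ρ` modulo `m`.
-/

set_option autoImplicit false

namespace Pool.Agent.Lib.MP_a17b09_nt.Old.AllModuli

theorem all_moduli (a b c : ℤ) (ha : 0 < a) (hΔ : ¬ IsSquare (b ^ 2 - 4 * a * c))
    (m ρ t₀ h : ℕ) (hm : 0 < m) (hh : 0 < h)
    (hcase : Odd m ∨ (h = 1 ∧ IsCoprime a b ∧
      ρ ≡ ArithmeticFunction.cardFactors a.natAbs [MOD 2])) :
    ∃ C : ℕ, ∀ ε : ℝ, 0 < ε → ε ≤ 1 / 2 → ∃ N₁ : ℕ, ∀ N : ℕ, N₁ ≤ N →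
      (N : ℝ) ^ (1 - ε) ≤ (((Finset.Icc 1 N).filter (fun t : ℕ => t ≡ t₀ [MOD h] ∧
        0 < a * (t : ℤ) ^ 2 + b * t + c ∧
        (ArithmeticFunction.cardFactors (a * (t : ℤ) ^ 2 + b * t + c).natAbs : ℝ) ≤ C / ε ∧
        ArithmeticFunction.cardFactors (a * (t : ℤ) ^ 2 + b * t + c).natAbs ≡
          ρ [MOD m])).card : ℝ) := by
  rcases hcase with hodd | ⟨h1, hab, hρ⟩
  · obtain ⟨C, hC⟩ :=
      Pool.Agent.MP_a17b09_nt.OM.final_all a b c ha hΔ m hodd (ρ : ZMod m) t₀ h hh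
    refine ⟨C, fun ε h0 h2 => ?_⟩
    obtain ⟨N₁, hN⟩ := hC ε h0 h2
    refine ⟨N₁, fun N hN1 => (hN N hN1).trans ?_⟩
    refine Nat.cast_le.mpr (Finset.card_le_card ?_)
    intro t ht
    rw [Finset.mem_filter] at ht ⊢
    refine ⟨ht.1, ht.2.1, ht.2.2.1, ht.2.2.2.1, ?_⟩
    exact (ZMod.natCast_eq_natCast_iff _ _ _).mp ht.2.2.2.2
  · obtain ⟨C, hC⟩ := Pool.Agent.MP_a17b09_nt.OM.final_rho a b c ha hab hΔ m hm ρ hρ
    refine ⟨C, fun ε h0 h2 => ?_⟩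
    obtain ⟨N₁, hN⟩ := hC ε h0 h2
    refine ⟨N₁, fun N hN1 => (hN N hN1).trans ?_⟩
    refine Nat.cast_le.mpr (Finset.card_le_card ?_)
    intro t ht
    rw [Finset.mem_filter] at ht ⊢
    refine ⟨ht.1, ?_, ht.2.1, ht.2.2.1, ht.2.2.2⟩
    subst h1
    exact Nat.modEq_one

end Pool.Agent.Lib.MP_a17b09_nt.Old.AllModuli
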