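import Pool.Agent.Lib.MP_a17b09_nt.AM.All

/-!
Let `f(t) = a t^2 + b t + c` with `a > 0` and nonsquare discriminant, let `m, ρ, t₀, h` be natural
numbers with `m, h > 0`. Suppose that either `m` is odd, or `h = 1`, `a` and `b` are coprime and `ρ`
has the parity of `Ω(a)`. Then there are `C` and `κ > 0` such that for every large `N`, at least
`κ N / (log N)^C` of the `t ≤ N` with `t ≡ t₀ mod h` have `f(t) > 0`, at most `C` prime factors of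
`f(t)`, counted with multiplicity, their number congruent to `ρ` modulo `m`, and every prime factor
of `f(t)` at most `C` or larger than `N^(1/C)`.
-/

set_option autoImplicit false

namespace Pool.Agent.Lib.MP_a17b09_nt.Old.AlmostPrimeModuli

theorem almost_prime_moduli (a b c : ℤ) (ha : 0 < a) (hΔ : ¬ IsSquare (b ^ 2 - 4 * a * c))
    (m ρ t₀ h : ℕ) (hm : 0 < m) (hh : 0 < h)
    (hcase : Odd m ∨ (h = 1 ∧ IsCoprime a b ∧
      ρ ≡ ArithmeticFunction.cardFactors a.natAbs [MOD 2])) :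
    ∃ C : ℕ, 0 < C ∧ ∃ κ : ℝ, 0 < κ ∧ ∃ N₁ : ℕ, ∀ N : ℕ, N₁ ≤ N →
      ∃ S : Finset ℕ, κ * ((N : ℝ) / (Real.log N) ^ C) ≤ (S.card : ℝ) ∧
      ∀ t ∈ S, 1 ≤ t ∧ t ≤ N ∧ t ≡ t₀ [MOD h] ∧ 0 < a * (t : ℤ) ^ 2 + b * (t : ℤ) + c ∧
        ArithmeticFunction.cardFactors (a * (t : ℤ) ^ 2 + b * (t : ℤ) + c).natAbs ≤ C ∧
        ArithmeticFunction.cardFactors (a * (t : ℤ) ^ 2 + b * (t : ℤ) + c).natAbs ≡ ρ [MOD m] ∧
        ∀ p : ℕ, p.Prime → (p : ℤ) ∣ a * (t : ℤ) ^ 2 + b * (t : ℤ) + c →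
          p ≤ C ∨ (N : ℝ) ^ (1 / (C : ℝ)) < p :=
  Pool.Agent.Lib.MP_a17b09_nt.AM.final99
    (Pool.Agent.Lib.MP_a17b09_nt.AM.stPatE_38
      (Pool.Agent.MP_a17b09_nt.OM.ct_fin_even
        (Pool.Agent.MP_a17b09_nt.OM.decoupleC Pool.Agent.MP_a17b09_nt.OM.ed
          Pool.Agent.MP_a17b09_nt.OM.pinsker) Pool.Agent.MP_a17b09_nt.OM.minorC)
      Pool.Agent.MP_a17b09_nt.OM.kap)
    a b c ha hΔ m ρ t₀ h hm hh hcase

end Pool.Agent.Lib.MP_a17b09_nt.Old.AlmostPrimeModuli
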