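import Pool.Agent.Lib.MP_a17b09_nt.Z.Main

set_option autoImplicit false

namespace Pool.Agent.Results.MP_a17b09_nt.EveryQuadratic

open Pool.Agent.Lib.MP_a17b09_nt

/-- The number of prime factors of `n` that lie in the set `P`, counted with multiplicity. -/
noncomputable def omegaIn (P : Set ℕ) (n : ℕ) : ℕ :=
  ∑ p ∈ n.primeFactors, P.indicator (fun q => n.factorization q) p

lemma cnt_eq (P : Set ℕ) (n : ℕ) : cnt P n = omegaIn P n := by
  classical
  unfold cnt omegaIn
  rw [List.countP_eq_length_filter, ← Multiset.coe_card, ← Multiset.filter_coe,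
    ← Multiset.toFinset_sum_count_eq]
  have h1 : (Multiset.filter (fun p => p ∈ P) (n.primeFactorsList : Multiset ℕ)).toFinset ⊆
      n.primeFactors := by
    intro p hp
    rw [Multiset.mem_toFinset, Multiset.mem_filter] at hp
    exact Nat.mem_primeFactors_iff_mem_primeFactorsList.2 (by simpa using hp.1)
  have h2 : ∀ p ∈ n.primeFactors,
      p ∉ (Multiset.filter (fun p => p ∈ P) (n.primeFactorsList : Multiset ℕ)).toFinset →
      Multiset.count p (Multiset.filter (fun p => p ∈ P) (n.primeFactorsList : Multiset ℕ)) = 0 := by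
    intro p _ hp
    rw [Multiset.mem_toFinset] at hp
    exact Multiset.count_eq_zero.2 hp
  refine (Finset.sum_subset h1 h2).trans ?_
  apply Finset.sum_congr rfl
  intro p _
  by_cases hp : p ∈ P
  · rw [Multiset.count_filter_of_pos hp, Set.indicator_of_mem hp, Multiset.coe_count,
      Nat.primeFactorsList_count_eq]
  · rw [Multiset.count_filter_of_neg hp, Set.indicator_of_notMem hp]

/-- Let `f(t) = a t² + b t + c` with `a > 0` and nonsquare discriminant, and let `P` be a set of
natural numbers that contains a prime `p ≡ 1 (mod n)` for every `n ≥ 1` (for instance all primes).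
Then in every residue class `t ≡ t₀ (mod r)` there are infinitely many `t ≥ 1` with `f(t) > 0` and
an odd number of prime factors of `f(t)` in `P`, and infinitely many with an even number, counted
with multiplicity. -/
theorem result (a b c : ℤ) (ha : 0 < a) (hD : ¬ IsSquare (b ^ 2 - 4 * a * c)) (P : Set ℕ)
    (hP : ∀ n : ℕ, 0 < n → ∃ p ∈ P, p.Prime ∧ p ≡ 1 [MOD n]) (t₀ r : ℕ) (hr : 0 < r) (s : ℕ) :
    Set.Infinite {t : ℕ | t ≡ t₀ [MOD r] ∧ 0 < a * (t : ℤ) ^ 2 + b * t + c ∧
      omegaIn P (a * (t : ℤ) ^ 2 + b * t + c).toNat ≡ s [MOD 2]} := by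
  intro hfin
  obtain ⟨B, hB⟩ := hfin.bddAbove
  -- the shifted polynomial
  have hrz : (0 : ℤ) < r := by exact_mod_cast hr
  have hD' : ¬ IsSquare ((2 * a * r * t₀ + b * r) ^ 2 - 4 * (a * r ^ 2) *
      (a * (t₀ : ℤ) ^ 2 + b * t₀ + c)) := by
    rintro ⟨k, hk⟩
    apply hD
    apply isSquare_of_sq_eq_mul_sq' _ k (r : ℤ) hrz.ne'
    rw [sq, ← hk]; ring
  -- positivity for large t
  set T1 : ℤ := |b| + |c| + 1 with hT1
  have hpos : ∀ t : ℤ, T1 ≤ t → 0 < a * t ^ 2 + b * t + c := by
    intro t ht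
    have hb := abs_nonneg b
    have hc := abs_nonneg c
    have hb' := neg_abs_le b
    have hc' := neg_abs_le c
    have ht1 : 1 ≤ t := by linarith
    have h1 : t * t ≤ a * t ^ 2 := by
      rw [sq]; exact le_mul_of_one_le_left (by positivity) ha
    have h2 : T1 * t ≤ t * t := by gcongr
    have h3 : -|b| * t ≤ b * t := by gcongr
    have h4 : |c| * 1 ≤ |c| * t := by gcongr
    have h5 : T1 * t = |b| * t + |c| * t + t := by rw [hT1]; ring
    linarith
  obtain ⟨σ, hσ⟩ : ∃ σ : ℤ, ∀ n : ℕ, sgn P (n : ℤ) ≠ σ → cnt P n ≡ s [MOD 2] := by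
    rcases Nat.even_or_odd s with hs | hs
    · refine ⟨-1, fun n hn => ?_⟩
      have h1 : ¬ Odd (cnt P n) := by
        rw [Ne, sgn_eq_neg_one_iff, Int.natAbs_natCast] at hn
        exact hn
      rw [Nat.not_odd_iff_even] at h1
      have e1 := Nat.even_iff.1 h1
      have e2 := Nat.even_iff.1 hs
      exact e1.trans e2.symm
    · refine ⟨1, fun n hn => ?_⟩
      have h1 : sgn P (n : ℤ) = -1 := by
        rcases sgn_eq_or P (n : ℤ) with h | h
        · exact absurd h hn
        · exact h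
      rw [sgn_eq_neg_one_iff, Int.natAbs_natCast] at h1
      have e1 := Nat.odd_iff.1 h1
      have e2 := Nat.odd_iff.1 hs
      exact e1.trans e2.symm
  apply no_const_sign (P := P) hP (a := a * r ^ 2) (b := 2 * a * r * t₀ + b * r)
    (c := a * (t₀ : ℤ) ^ 2 + b * t₀ + c) (by positivity) hD' σ (T1 + B + 1)
  intro k hk
  have hT10 : 0 ≤ T1 := by rw [hT1]; positivity
  have hBz : (0 : ℤ) ≤ B := by positivity
  have hk0 : 0 ≤ k := by linarith
  obtain ⟨k, rfl⟩ := Int.eq_ofNat_of_zero_le hk0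
  set t : ℕ := t₀ + r * k with ht
  have hkt : k ≤ t := by
    rw [ht]
    have := Nat.le_mul_of_pos_left k hr
    omega
  have htz : T1 + B + 1 ≤ (t : ℤ) := by
    have : (k : ℤ) ≤ t := by exact_mod_cast hkt
    linarith
  have e : a * (r : ℤ) ^ 2 * (k : ℤ) ^ 2 + (2 * a * r * t₀ + b * r) * k +
      (a * (t₀ : ℤ) ^ 2 + b * t₀ + c) = a * (t : ℤ) ^ 2 + b * t + c := by
    rw [ht]; push_cast; ring
  rw [e]
  have hft := hpos t (by linarith)
  refine ⟨hft, ?_⟩
  by_contra hne
  have hmem : t ∈ {t : ℕ | t ≡ t₀ [MOD r] ∧ 0 < a * (t : ℤ) ^ 2 + b * t + c ∧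
      omegaIn P (a * (t : ℤ) ^ 2 + b * t + c).toNat ≡ s [MOD 2]} := by
    refine ⟨?_, hft, ?_⟩
    · rw [ht]
      simp [Nat.ModEq]
    · rw [← cnt_eq]
      apply hσ
      rw [Int.toNat_of_nonneg hft.le]
      exact hne
  have := hB hmem
  have : (t : ℤ) ≤ B := by exact_mod_cast this
  linarith

end Pool.Agent.Results.MP_a17b09_nt.EveryQuadratic
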