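import Pool.Agent.Lib.MP_a17b09_nt.LG.FinD

set_option autoImplicit false

namespace Pool.Agent.Results.MP_a17b09_nt.LogPowerParity

open Pool.Agent.Lib.MP_a17b09_nt Pool.Agent.Lib.MP_a17b09_nt.LP Pool.Agent.Lib.MP_a17b09_nt.LG

/-- The number of prime factors of `n` that lie in the set `P`, counted with multiplicity. -/
noncomputable def omegaIn (P : Set ℕ) (n : ℕ) : ℕ :=
  ∑ p ∈ n.primeFactors, P.indicator (fun q => n.factorization q) p

lemma cnt_eq (P : Set ℕ) (n : ℕ) : cnt P n = omegaIn P n := by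
  classical
  unfold cnt omegaIn
  rw [List.countP_eq_length_filter, ← Multiset.coe_card, ← Multiset.filter_coe,
    ← Multiset.toFinset_sum_count_eq]
  have h1 : (Multiset.filter (fun p => p ∈ P) (n.primeFactorsList : Multiset ℕ)).toFinset ⊆
      n.primeFactors := by
    intro p hp
    rw [Multiset.mem_toFinset, Multiset.mem_filter] at hp
    exact Nat.mem_primeFactors_iff_mem_primeFactorsList.2 (by simpa using hp.1)
  have h2 : ∀ p ∈ n.primeFactors,
      p ∉ (Multiset.filter (fun p => p ∈ P) (n.primeFactorsList : Multiset ℕ)).toFinset →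
      Multiset.count p (Multiset.filter (fun p => p ∈ P) (n.primeFactorsList : Multiset ℕ)) = 0 := by
    intro p _ hp
    rw [Multiset.mem_toFinset] at hp
    exact Multiset.count_eq_zero.2 hp
  refine (Finset.sum_subset h1 h2).trans ?_
  apply Finset.sum_congr rfl
  intro p _
  by_cases hp : p ∈ P
  · rw [Multiset.count_filter_of_pos hp, Set.indicator_of_mem hp, Multiset.coe_count,
      Nat.primeFactorsList_count_eq]
  · rw [Multiset.count_filter_of_neg hp, Set.indicator_of_notMem hp]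

lemma natAbs_eq_toNat {n : ℤ} (h : 0 < n) : n.natAbs = n.toNat := by omega

lemma sgn_eq_iff {P : Set ℕ} {m : ℤ} {n : ℕ} (hm : 0 < m) :
    sgn P m = sgn P (n : ℤ) ↔ omegaIn P m.toNat ≡ omegaIn P n [MOD 2] := by
  have h1 : sgn P m = (-1) ^ omegaIn P m.toNat := by
    unfold sgn
    rw [cnt_eq, natAbs_eq_toNat hm]
  have h2 : sgn P (n : ℤ) = (-1) ^ omegaIn P n := by
    unfold sgn
    rw [cnt_eq, Int.natAbs_natCast]
  rw [h1, h2]
  unfold Nat.ModEq
  rcases Nat.even_or_odd (omegaIn P m.toNat) with h3 | h3 <;>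
    rcases Nat.even_or_odd (omegaIn P n) with h4 | h4
  · rw [h3.neg_one_pow, h4.neg_one_pow, Nat.even_iff.1 h3, Nat.even_iff.1 h4]
    simp
  · rw [h3.neg_one_pow, h4.neg_one_pow, Nat.even_iff.1 h3, Nat.odd_iff.1 h4]
    norm_num
  · rw [h3.neg_one_pow, h4.neg_one_pow, Nat.odd_iff.1 h3, Nat.even_iff.1 h4]
    norm_num
  · rw [h3.neg_one_pow, h4.neg_one_pow, Nat.odd_iff.1 h3, Nat.odd_iff.1 h4]
    simp

/-- Let `f(t) = t² + b t + c` with `b² - 4c` not a square. There is a `C` such that for every set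
`P` of natural numbers, every positive integer `n = x² + b x y + c y²` and every `N ≥ 3`,
`N ≤ (n log N)^C (1 + #T)`, where `T` is the set of the integers `1 ≤ t ≤ N` with `f(t) > 0` for
which `f(t)` has at most `(n log N)^C` divisors and the number of prime factors of `f(t)` in `P` has
the same parity as the number of prime factors of `n` in `P`, both counted with multiplicity.
Moreover some such `n` has an odd number of prime factors. -/
theorem result (b c : ℤ) (hD : ¬ IsSquare (b ^ 2 - 4 * c)) :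
    ∃ C : ℕ, (∀ (P : Set ℕ) (n : ℕ), 0 < n → (∃ x y : ℤ, x ^ 2 + b * x * y + c * y ^ 2 = n) →
      ∀ N : ℕ, 3 ≤ N → (N : ℝ) ≤ (n * Real.log N) ^ C *
        (1 + (Set.ncard {t : ℕ | 1 ≤ t ∧ t ≤ N ∧ 0 < (t : ℤ) ^ 2 + b * t + c ∧
          (((t : ℤ) ^ 2 + b * t + c).toNat.divisors.card : ℝ) ≤ (n * Real.log N) ^ C ∧
          omegaIn P ((t : ℤ) ^ 2 + b * t + c).toNat ≡ omegaIn P n [MOD 2]} : ℝ))) ∧
      ∃ n : ℕ, (∃ x y : ℤ, x ^ 2 + b * x * y + c * y ^ 2 = n) ∧ Odd (omegaIn Set.univ n) := by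
  obtain ⟨C, h⟩ := parity_G hD
  refine ⟨C, ?_, ?_⟩
  · rintro P n hn0 ⟨x, y, hxy⟩ N hN
    have hval : nrm b c (x, y) = (n : ℤ) := hxy
    have hpos : 0 < nrm b c (x, y) := by
      rw [hval]; exact_mod_cast hn0
    have h1 := h P (x, y) hpos N hN
    rw [hval, Int.cast_natCast] at h1
    refine h1.trans (le_of_eq ?_)
    congr 3
    rw [← Set.ncard_coe_finset]
    congr 1
    ext t
    rw [Finset.mem_coe, Finset.mem_filter, Finset.mem_Icc]
    constructor
    · rintro ⟨⟨a1, a2⟩, a3, a4, a5⟩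
      refine ⟨a1, a2, a3, ?_, (sgn_eq_iff a3).1 a5⟩
      rw [natAbs_eq_toNat a3] at a4
      exact a4
    · rintro ⟨a1, a2, a3, a4, a5⟩
      refine ⟨⟨a1, a2⟩, a3, ?_, (sgn_eq_iff a3).2 a5⟩
      rw [← natAbs_eq_toNat a3] at a4
      exact a4
  · obtain ⟨u, hu1, hu2⟩ := exists_odd_univ hD
    refine ⟨(nrm b c u).toNat, ⟨u.1, u.2, ?_⟩, ?_⟩
    · rw [Int.toNat_of_nonneg hu1.le]
      rfl
    · rw [sgn_eq_neg_one_iff, cnt_eq, natAbs_eq_toNat hu1] at hu2
      exact hu2

end Pool.Agent.Results.MP_a17b09_nt.LogPowerParity
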