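import Pool.Agent.Lib.MP_a17b09_nt.PQ.AllX79
import Pool.Agent.Lib.MP_a17b09_nt.PQ.FinX64
import Pool.Agent.Lib.MP_a17b09_nt.PQH.AllX99

/-!
Let `f t = a t ^ 2 + b t + c` be an integer quadratic polynomial with `a > 0` whose discriminant is
not a square.  Over the pairs `(t, d)` with `d ∣ f t` and `α t ≤ d ≤ β t` the pair
`(Ω d, Ω (f t / d))` of numbers of prime factors is equidistributed modulo every `k`, also over the
pairs for which `d` and `a f t / d` have prime factors in prescribed windows, with an asymptotic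
count.  In particular `f t` is, up to a factor `e ≤ t ^ δ`, a product of primes of prescribed sizes
(any pattern which splits into two halves: `f t = e p p'`, or all primes `≤ t ^ δ`) with `Ω (f t)` in
a prescribed class modulo `k`, for at least `N / (log N) ^ (log 2 + ε)` of the `t ≤ N`.
-/

set_option autoImplicit false

open Filter Topology

namespace Pool.Agent.Lib.MP_a17b09_nt.OldPX

/-- A set of natural numbers has upper Banach logarithmic density zero: for every `ε > 0` and all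
large `H`, the sum of `1 / n` over the `n` of the set with `N < n ≤ 2 ^ H N` is at most `ε H` for
all large `N`. -/
def LogNull (E : Set ℕ) : Prop :=
  ∀ ε : ℝ, 0 < ε → ∃ H₀ : ℕ, ∀ H : ℕ, H₀ ≤ H → ∃ N₀ : ℕ, ∀ N : ℕ, N₀ ≤ N →
    ∑ n ∈ Finset.Ioc N (2 ^ H * N), E.indicator (fun n => (1 : ℝ) / n) n ≤ ε * H

/-- The number of pairs `(t, d)` with `1 ≤ t ≤ N`, `t ≡ t₀ mod h`, `d ∣ f t`, `α t ≤ d ≤ β t` and
`P t d`, where `f t = a t ^ 2 + b t + c`. -/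
noncomputable def pairCount (a b c : ℤ) (h t₀ : ℕ) (α β : ℝ) (P : ℕ → ℕ → Prop) (N : ℕ) : ℕ :=
  ∑ t ∈ (Finset.Icc 1 N).filter (fun t => t ≡ t₀ [MOD h]),
    Set.ncard {d : ℕ | (d : ℤ) ∣ a * (t : ℤ) ^ 2 + b * t + c ∧ α * t ≤ d ∧ d ≤ β * t ∧ P t d}

/-- `X` is a finite set of disjoint windows `(u, v]` of exponents, `0 < u < v`, such that the sum of
all `v` is less than `1` and the sum of all `u` and one more of them is larger than `1`.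
The empty set is allowed. -/
def Windows (X : Finset (ℝ × ℝ)) : Prop :=
  (∀ I ∈ X, 0 < I.1 ∧ I.1 < I.2) ∧ (∀ I ∈ X, ∀ J ∈ X, I ≠ J → I.2 ≤ J.1 ∨ J.2 ≤ I.1) ∧
  ∑ I ∈ X, I.2 < 1 ∧ ∀ J ∈ X, 1 < ∑ I ∈ X, I.1 + J.1

/-- `n` has a prime factor `p ≡ 1 mod q` with `n ^ u < p ≤ n ^ v` for every window `(u, v]`. -/
def Win (q : ℕ) (X : Finset (ℝ × ℝ)) (n : ℕ) : Prop := ∀ I ∈ X, ∃ p : ℕ, p.Prime ∧
  p ≡ 1 [MOD q] ∧ p ∣ n ∧ (n : ℝ) ^ I.1 < p ∧ (p : ℝ) ≤ (n : ℝ) ^ I.2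

/-- The density: the product of `2 / φ(q) * log (v / u)` over the windows `(u, v]`. -/
noncomputable def rho (q : ℕ) (X : Finset (ℝ × ℝ)) : ℝ :=
  ∏ I ∈ X, (2 / (Nat.totient q : ℝ) * Real.log (I.2 / I.1))

/-- The condition of the pairs: `d` has prime factors in the windows `X` and `a |f t| / d` in the
windows `Y`, and `(Ω d, Ω (|f t| / d))` is `(r, s)` modulo `k`. -/
def Sel (a b c : ℤ) (q : ℕ) (X Y : Finset (ℝ × ℝ)) (k r s t d : ℕ) : Prop :=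
  Win q X d ∧ Win q Y (a.natAbs * ((a * (t : ℤ) ^ 2 + b * t + c).natAbs / d)) ∧
  ArithmeticFunction.cardFactors d ≡ r [MOD k] ∧
  ArithmeticFunction.cardFactors ((a * (t : ℤ) ^ 2 + b * t + c).natAbs / d) ≡ s [MOD k]

theorem result (a b c : ℤ) (ha : 0 < a) (hD : ¬ IsSquare (b ^ 2 - 4 * a * c)) (q : ℕ)
    (hq : (q : ℤ) = 4 * |b ^ 2 - 4 * a * c|) (h t₀ : ℕ) (hh : 0 < h) :
    (∀ α β : ℝ, 0 < α → α < β → ∃ κ : ℝ, 0 < κ ∧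
      Tendsto (fun N : ℕ => (pairCount a b c h t₀ α β (fun _ _ => True) N : ℝ) / N) atTop
        (𝓝 κ) ∧
      ∀ X Y : Finset (ℝ × ℝ), Windows X → Windows Y → ∀ k : ℕ, 0 < k → ∀ r s : ℕ,
        (∀ ε : ℝ, 0 < ε → LogNull {N : ℕ | ε * N <
          |(pairCount a b c h t₀ α β (Sel a b c q X Y k r s) N : ℝ) -
            rho q X * rho q Y * κ / k ^ 2 * N|}) ∧
        (∃ c' : ℝ, 0 < c' ∧ ∀ᶠ N : ℕ in atTop, c' * N ≤
          (pairCount a b c h t₀ α β (Sel a b c q X Y k r s) N : ℝ)) ∧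
        ∀ ε : ℝ, 0 < ε → ∀ᶠ N : ℕ in atTop, (N : ℝ) / Real.log N ^ (Real.log 2 + ε) ≤
          (Set.ncard {t : ℕ | 1 ≤ t ∧ t ≤ N ∧ t ≡ t₀ [MOD h] ∧ ∃ d : ℕ,
            (d : ℤ) ∣ a * (t : ℤ) ^ 2 + b * t + c ∧ α * t ≤ d ∧ d ≤ β * t ∧
            Sel a b c q X Y k r s t d} : ℝ)) ∧
    ∀ (m l : ℕ) (x : Fin m → ℝ) (y : Fin l → ℝ), (∀ i, 0 < x i) → (∀ j, 0 < y j) →
      ∑ i, x i = 1 → ∑ j, y j = 1 → ∀ δ : ℝ, 0 < δ → ∀ k : ℕ, 0 < k → ∀ r : ℕ, ∀ ε : ℝ, 0 < ε →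
      ∀ᶠ N : ℕ in atTop, (N : ℝ) / Real.log N ^ (Real.log 2 + ε) ≤
        (Set.ncard {t : ℕ | 1 ≤ t ∧ t ≤ N ∧ t ≡ t₀ [MOD h] ∧
          ∃ (e : ℕ) (p : Fin m → ℕ) (p' : Fin l → ℕ), (∀ i, (p i).Prime) ∧
          (∀ j, (p' j).Prime) ∧
          (∀ i, (t : ℝ) ^ (x i - δ) < p i ∧ (p i : ℝ) < (t : ℝ) ^ (x i + δ)) ∧
          (∀ j, (t : ℝ) ^ (y j - δ) < p' j ∧ (p' j : ℝ) < (t : ℝ) ^ (y j + δ)) ∧
          (e : ℝ) ≤ (t : ℝ) ^ δ ∧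
          a * (t : ℤ) ^ 2 + b * t + c = e * (∏ i, p i) * (∏ j, p' j) ∧
          ArithmeticFunction.cardFactors (e * (∏ i, p i) * (∏ j, p' j)) ≡ r [MOD k]} : ℝ) := by
  have hA : ∀ α β : ℝ, 0 < α → α < β → Pool.Agent.Lib.MP_a17b09_nt.PQ.PairsX a b c q h t₀ α β :=
    fun α β hα hαβ => Pool.Agent.Lib.MP_a17b09_nt.PQH.pairsX_all64 Pool.Agent.Lib.MP_a17b09_nt.PQ.stEndX_all79
      Pool.Agent.Lib.MP_a17b09_nt.PQH.stEndXH_99 a b c ha hD q hq h t₀ hh α β hα hαβ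
  have hB : Pool.Agent.Lib.MP_a17b09_nt.PQ.ArgsX a b c h t₀ :=
    Pool.Agent.Lib.MP_a17b09_nt.PQ.stArgX_96 a b c ha hD q h t₀ hh (hA 1 2 one_pos (by norm_num))
  obtain ⟨h1, h2⟩ := Pool.Agent.Lib.MP_a17b09_nt.PQ.finPX a b c ha hD q h t₀ hA hB
  refine ⟨fun α β hα hαβ => ?_, h2⟩
  obtain ⟨κ, hκ, h3, h4⟩ := h1 α β hα hαβ
  exact ⟨κ, hκ, h3, fun X Y hX hY => h4 X Y ⟨hX.1, hX.2.1, hX.2.2.1, hX.2.2.2⟩
    ⟨hY.1, hY.2.1, hY.2.2.1, hY.2.2.2⟩⟩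

end Pool.Agent.Lib.MP_a17b09_nt.OldPX
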